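import Mathlib
import Pool.Agent.Helper59.PZ.Main

/-!
Problem MP_51c8ca_al (idempotent binary maps preserving a family of equivalence relations).

For every layout of a finite graph `G`, an explicit family of at most `7 |E|` equivalence relations
on the explicit set `E` of the layout has property (P) if and only if `G` is not 3-colourable; and
for every `D` every graph with `N ≥ 1` vertices and degrees at most `D` has a layout with
`|E|² ≤ C N (log₂ N + 1)`.
-/

set_option autoImplicit false

namespace Pool.Agent.Results.MP_51c8ca_al.NearQuadraticHardness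

open Pool.Agent.Helper70.IdemDefs Pool.Agent.Helper59.PZ

theorem result :
    (∀ (V : Type) [Finite V] (G : SimpleGraph V) (Λ : Layout G),
      Finite Λ.Pt ∧ Λ.family.ncard ≤ 7 * Nat.card Λ.Pt ∧
        (PropertyP Λ.family ↔ ¬ G.Colorable 3)) ∧
    (∀ D : ℕ, ∃ C : ℕ, ∀ (V : Type) [Finite V] [Nonempty V] (G : SimpleGraph V),
      (∀ v, (G.neighborSet v).ncard ≤ D) →
        ∃ Λ : Layout G, Nat.card Λ.Pt ^ 2 ≤
          C * (Nat.card V * (Nat.log 2 (Nat.card V) + 1))) :=
  main

end Pool.Agent.Results.MP_51c8ca_al.NearQuadraticHardness
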