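import Mathlib
import Pool.Agent.Helper70.IdemDefs
import Pool.Agent.Helper70.SqFree

/-!
Classification of the square-free families of equivalence relations with property (P).
-/

namespace Pool.Agent.Results.MP_51c8ca_al.SquareFreeFamilies

open Pool.Agent.Helper70.IdemDefs

/-- Let `E` be a finite set with at least two points and `F` a family of equivalence
relations on `E`. If `F` has property (P), then the join of `F` is the total relation and every
point lies in non-singleton classes of at least two different members of `F`. If `F` is
square-free, then conversely these two conditions imply property (P). -/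
theorem result {E : Type*} [Finite E] [Nontrivial E] (F : Set (Setoid E)) :
    (PropertyP F → sSup F = ⊤ ∧ TwoBlocks F) ∧
      (SquareFree F → (PropertyP F ↔ sSup F = ⊤ ∧ TwoBlocks F)) :=
  ⟨fun h => ⟨Pool.Agent.Helper70.SqFree.sSup_eq_top_of_propertyP h,
    Pool.Agent.Helper70.SqFree.leafless_of_propertyP h⟩,
    fun hF => Pool.Agent.Helper70.SqFree.main F hF⟩

end Pool.Agent.Results.MP_51c8ca_al.SquareFreeFamilies
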