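import Mathlib
import Pool.Agent.Helper70.IdemDefs
import Pool.Agent.Helper70.CoverDefs
import Pool.Agent.Helper70.ThreeCol

/-!
Property (P) for three equivalence relations encodes non-3-colourability of graphs.
-/

namespace Pool.Agent.Results.MP_51c8ca_al.ThreeColourability

open Pool.Agent.Helper70.IdemDefs
open Pool.Agent.Helper70.CoverDefs

/-- For a finite connected simple graph `G` with at least two vertices and a vertex `v₀`, the
explicit set `Pt G v₀` has `14 m + 2` points, `m` being the number of edges of `G`, and the
family of the three explicit equivalence relations `relA`, `relB`, `relC` on it has property (P)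
if and only if `G` is not 3-colourable. -/
theorem result {V : Type*} [Finite V] [Nontrivial V] (G : SimpleGraph V) (hG : G.Connected)
    (v₀ : V) :
    Nat.card (Pt G v₀) = 14 * Nat.card G.edgeSet + 2 ∧
    (PropertyP ({relA G v₀, relB G v₀, relC G v₀} : Set (Setoid (Pt G v₀))) ↔
      ¬ G.Colorable 3) :=
  ⟨Pool.Agent.Helper70.ThreeCol.card_pt, Pool.Agent.Helper70.ThreeCol.main hG⟩

end Pool.Agent.Results.MP_51c8ca_al.ThreeColourability
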