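import Mathlib
import Pool.Agent.Helper57.Idem.Semi
import Pool.Agent.Helper57.Idem.Generic
import Pool.Agent.Helper74.Idem.Complexes

set_option autoImplicit false

/-!
Property (P) for two equivalence relations whose incidence structure satisfies a local exchange
condition: simplicial complexes without free faces, matroids, designs, and almost all subsets of
a grid.
-/

namespace Pool.Agent.Results.MP_51c8ca_al.TwoRelations

open Pool.Agent.Helper70.IdemDefs Pool.Agent.Helper57.Idem Pool.Agent.Helper74.Idem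
open scoped Classical

/-- Points are the `θ`-classes, blocks the `φ`-classes; a point and a block are incident if they
meet.
(A) criterion under `LocalExchange` and one of `NearestSpan` and, on a finite set, `Walls`;
(B) the flags of a finite simplicial complex without free faces;
(C) the flags of a finite matroid of rank at least two;
(D) the flags of a pairwise balanced design;
(E) the flags of an incidence structure with constant intersection numbers `lam, mu ≥ 2`;
(F) almost all subsets of the grid `(Fin n)^k`, for every fixed `k = d + 1 ≥ 2`. -/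
theorem result :
    (∀ (E : Type) (θ φ : Setoid E), LocalExchange θ φ →
      (NearestSpan θ φ ∨ Finite E ∧ Walls θ φ) →
      (PropertyP {θ, φ} ↔ θ ⊔ φ = ⊤ ∧ Tight θ φ)) ∧
    (∀ (V : Type) [Finite V] (K : PreAbstractSimplicialComplex V), NoFreeFaces K →
      (PropertyP {sameFst (FInc K), sameSnd (FInc K)} ↔ Conn K)) ∧
    (∀ (α : Type) [Finite α] (M : Matroid α), (∃ B, M.IsBase B ∧ 2 ≤ B.ncard) →
      (PropertyP {sameFst (MInc M), sameSnd (MInc M)} ↔ ∀ e, ¬ M.IsColoop e)) ∧
    (∀ (P : Type) [Fintype P] [Nontrivial P] (𝓑 : Finset (Finset P)) (lam : ℕ), 0 < lam →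
      (∀ B ∈ 𝓑, B.Nonempty) →
      (∀ x y : P, x ≠ y → (𝓑.filter fun B => x ∈ B ∧ y ∈ B).card = lam) →
      (PropertyP {sameFst (BInc 𝓑), sameSnd (BInc 𝓑)} ↔
        (∀ B ∈ 𝓑, ∀ C ∈ 𝓑, B ⊆ C → B = C) ∧ Finset.univ ∉ 𝓑)) ∧
    (∀ (A B : Type) (I : A → B → Prop) (lam mu : ℕ), 2 ≤ lam → 2 ≤ mu →
      Nontrivial (Flag I) → (∀ x, ∃ u, I x u) → (∀ u, ∃ x, I x u) →
      (∀ x y, x ≠ y → (∃ u, I x u ∧ I y u) → {u | I x u ∧ I y u}.ncard = lam) →
      (∀ u v, u ≠ v → (∃ x, I x u ∧ I x v) → {x | I x u ∧ I x v}.ncard = mu) →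
      (PropertyP {sameFst I, sameSnd I} ↔ sameFst I ⊔ sameSnd I = ⊤ ∧ ¬ ∀ x u, I x u)) ∧
    (∀ d : ℕ, 1 ≤ d →
      (∀ n : ℕ, 3 ≤ n → ((Finset.univ.filter fun M : (Fin (d + 1) → Fin n) → Bool =>
        ¬ PropertyP (gridFamily M)).card : ℝ) ≤
        ((n : ℝ) ^ 3 * (7 / 8) ^ (n ^ d) + (n : ℝ) ^ (2 * d) * (3 / 4) ^ n) *
          2 ^ (n ^ (d + 1))) ∧
      Filter.Tendsto (fun n : ℕ => ((Finset.univ.filter fun M : (Fin (d + 1) → Fin n) → Bool =>
        ¬ PropertyP (gridFamily M)).card : ℝ) / 2 ^ (n ^ (d + 1))) Filter.atTop (nhds 0)) := by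
  refine ⟨?_, fun _ _ K hK => complexes K hK, fun _ _ M hr => matroids M hr, ?_, ?_, ?_⟩
  · rintro E θ φ h1 (h2 | ⟨h2, h3⟩)
    · exact criterionG h1 h2
    · exact criterionW h1 h3
  · intro P _ _ 𝓑 lam hlam hne hB
    exact pbd 𝓑 lam hlam hne hB
  · intro A B I lam mu hl hm hnt hA hB h1 h2
    exact semi hl hm hA hB h1 h2
  · intro d hd
    exact ⟨fun n hn => card_fail hn, tendsto_fail hd⟩

end Pool.Agent.Results.MP_51c8ca_al.TwoRelations
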